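import Mathlib
import Pool.Agent.H621.MM.Defs
import Pool.Agent.H621.MM.Main

/-!
# Hodge, motivated and Tate classes: adding motives with big monodromy to an arbitrary motive

Let `M = G_1 ⊕ ⋯ ⊕ G_n` be ANY motive (the `G_j` are polarised; nothing is assumed on `M`), and let
`T_i`, `i ∈ J`, be a finite or infinite family of polarised motives with big monodromy whose
normalised eigenvalues are independent, for instance the `h^1` of pairwise non-isogenous elliptic
curves without complex multiplication, for which this is a theorem of Serre and Faltings (and is well
known for the Hodge structures). A realisation is the Hodge realisation, the motivic one or an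
`ℓ`-adic one (see the file `Pool/Agent/H621/MM/Defs.lean`).

The motivated Mumford-Tate conjecture for a motive says that all Hodge classes and all Tate classes
on its tensor constructions are motivated: `Classes T G B r m` for `r` the Hodge or the `ℓ`-adic
realisation and `m` the motivic one says this for the classes for `r` on the motive
`M ⊕ ⨁_{i ∈ B} T_i` (for an infinite set `B`: on all motives in the category generated by `M` and the
`T_i` with `i ∈ B`). We show:

* the set `S` of the `T_i` which are exceptional for `M` in the realisation `r` is finite, and the sum
  of the halves of the ranks of these `T_i` is at most the sum of the halves of the ranks of the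
  `G_j`;
* all classes for `r` on `M ⊕ ⨁_{i ∈ B ∪ U} T_i` are classes for `r'` if and only if this is true
  for `M ⊕ ⨁_{i ∈ B} T_i`, for all sets `B`, `U` of indices such that no `T_i` with `i ∈ U` is
  exceptional, and for all realisations `r'` (without conditions on the `T_i` in the realisation
  `r'`);
* the same is true for stable lines instead of classes.

So the motivated Mumford-Tate conjecture for all motives in the category generated by `M` and ALL the
`T_i` is equivalent to the conjecture for the one motive `M ⊕ ⨁_{i ∈ S} T_i`, where `S` consists of
the exceptional indices for the Hodge and the `ℓ`-adic realisation, and it is equivalent to the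
conjecture for `M` if there are no exceptional indices. The orthogonal and the symplectic case are
both included, and all tensor powers (so also the determinants in the orthogonal case).
-/

namespace Pool.Agent.Results.MP_b8862a_ag.ArbitraryMotives

open Pool.Agent.H621.MM

/-- **Adding motives with big monodromy to an arbitrary motive.** -/
theorem result {K : Type} [Field K] [CharZero K] [IsAlgClosed K] {R : Type} {Γ : R → Type}
    [∀ r, Group (Γ r)] (χ : ∀ r, Γ r →* Kˣ) {J N : Type} [Fintype N]
    -- the motives `T i` and the summands `G j` of the arbitrary motive
    (T : J → Motive χ) (G : N → Motive χ)
    -- a realisation for which the `T i` have big and independent monodromy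
    (r : R) (hbig : ∀ i, (T i).Big r) (hgen : ∀ A : Finset J, Generic T r A) :
    -- the set of the exceptional `T i` is finite and bounded by the rank of the arbitrary motive
    ∃ S : Finset J, (∀ i, i ∈ S ↔ Exceptional G r (T i)) ∧
      ∑ i ∈ S, (T i).rank / 2 ≤ ∑ j, (G j).rank / 2 ∧
      -- the others can be added
      ∀ (B U : Set J), (∀ i ∈ U, i ∉ S) → ∀ r' : R,
        (Classes T G (B ∪ U) r r' ↔ Classes T G B r r') ∧
        (Lines T G (B ∪ U) r r' ↔ Lines T G B r r') := by
  obtain ⟨S, h1, h2⟩ := exists_exceptional hbig hgen G
  exact ⟨S, h2, h1, fun B U hU r' =>
    ⟨classes_union hbig hgen fun i hi h => hU i hi ((h2 i).2 h),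
      lines_union hbig hgen fun i hi h => hU i hi ((h2 i).2 h)⟩⟩

end Pool.Agent.Results.MP_b8862a_ag.ArbitraryMotives
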