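import Mathlib
import Pool.Agent.Helper883_Four.Stmt

/-!
# Classes of degree four decide the motivated Mumford–Tate conjecture

`M` is a motive of rank `N` and weight `w`. The dual of its Betti realization is `ℚ ^ N`, with the
polarized Hodge structure `W`; the dual of its `ℓ`-adic realization is `ℚ_ℓ ^ N` (here `ℓ = p`), with
a continuous semisimple representation `ρ` of the compact group `Γ` which preserves the polarization
up to the continuous character `χ`.

The classes in `M ^ {⊗ 2 m} (m w)` are the multilinear forms in `2 m` variables, given by their
coefficients. `hodge W m` is the space of Hodge classes, `tate ρ χ m` the space of Tate classes, and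
a family `A` of rational classes between the algebraic classes and the classes which are both Hodge
and Tate stands for the motivated classes. `lie F` is the Lie algebra of the group which fixes all
classes of the family `F`: `lie (hodge W)` is the Lie algebra of the Hodge group, and
`lie (tate ρ χ)` the one of the Zariski closure of the kernel of `χ`.

We show: there are one Hodge class `h` and one Tate class `t`, both in `M ^ {⊗ 4} (2 w)`, which
together with the classes in `M ^ {⊗ 2} (w)` determine both Lie algebras up to the part of type IV of
the centre.
-/

namespace Pool.Agent.Results.MP_b8862a_ag.DegreeFour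

open Matrix Module Pool.Agent.Helper883_Four

theorem result {N : ℕ} (W : PolHS N) {p : ℕ} [Fact p.Prime]
    {Γ : Type} [Group Γ] [TopologicalSpace Γ] [IsTopologicalGroup Γ] [CompactSpace Γ]
    (ρ : Γ →* Matrix (Fin N) (Fin N) ℚ_[p]) (χ : Γ →* ℚ_[p]) (hW : IsRealization W ρ χ) :
    -- there are one Hodge class `h` and one Tate class `t` in `M ^ {⊗ 4} (2 w)` such that:
    ∃ h ∈ hodge W 2, ∃ t ∈ tate ρ χ 2,
      -- (1) `h` and the Hodge classes in `M ^ {⊗ 2} (w)` determine all Hodge classes, up to the
      -- centre; (2) the same for the Tate classes
      Decides W.Q (hodge W) h ∧ Decides W.Q (tate ρ χ) t ∧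
      -- (3) if the Hodge classes and the Tate classes in `M ^ {⊗ 4} (2 w)` are motivated, then the
      -- Lie algebra of the motivic group is that of the Hodge group and that of the `ℓ`-adic group,
      -- up to the centre, and exactly if there is no part of type IV
      (∀ A, IsBoth W ρ χ A → FullInDegreeFour W ρ χ A →
        lie A ≤ lie (hodge W) ⊔ centre W.Q (hodge W) ∧
        lie (ext ℚ_[p] A) ≤ lie (tate ρ χ) ⊔ centre W.Q (tate ρ χ) ∧
        (centre W.Q (hodge W) = ⊥ →
          lie A = lie (hodge W) ∧ lie (ext ℚ_[p] A) = lie (tate ρ χ))) ∧
      -- (4) in the situation of abelian varieties, all Tate classes in all `M ^ {⊗ 2 m} (m w)` come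
      -- from Hodge classes if and only if the dimensions agree for `M ^ {⊗ 4} (2 w)`, and if and
      -- only if the one class `t` comes from Hodge classes
      (LikeAbelian W ρ χ →
        List.TFAE [∀ m, tate ρ χ m ≤ ext ℚ_[p] (hodge W) m,
          finrank ℚ_[p] (tate ρ χ 2) = finrank ℚ (hodge W 2),
          t ∈ ext ℚ_[p] (hodge W) 2]) :=
  W.main' ρ χ hW

end Pool.Agent.Results.MP_b8862a_ag.DegreeFour
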