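import Pool.Agent.Helper880_EX.Mtb
import Pool.Agent.Helper880_EX.Prd
import Pool.Agent.Helper880_AJ.Cnt
import Pool.Agent.Helper880_UN.Tra
import Pool.Agent.Helper880_UN.Scl2

/-!
# From one fibre to one hundred per cent of the fibres: the Hodge classes of the members of families

Let `X → S` be a smooth projective family over `ℚ` over an open part `S` of the affine line, with **any** algebraic monodromy
group, and let `X_c` be the fibre over `c ∈ S(ℚ)`. The theorem says that for one hundred per cent of the integers `t` the Hodge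
classes on all products `Z × X_(c + 1/t)^k` (`Z` any smooth projective variety over `ℂ`) are exactly the parallel transports of
the monodromy invariant Hodge classes on `Z × X_c^k`: there are at most `K x^(1 - δ)` exceptions `t ≤ x`, with `δ > 0`. The consequences
for the motivated Mumford-Tate conjecture `MT = G_mot = G_ℓ` are:

* **If the conjecture (all of Q1) is true for `X_c` then it is true for one hundred per cent of the fibres `X_(c + 1/t)`.** For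
  example this is so for all families through a fibre whose motive is a product of CM motives of abelian type (through a Fermat variety
  in any dimension), and for families with big monodromy nothing has to be assumed on `X_c`.
* If all Hodge classes on the powers of `X_c` are motivated, then this is true for one hundred per cent of the fibres. By André
  it is true if the motive of `X_c` is of abelian type.
* If `X_c` has few periods, for example if it is a Fermat variety and the monodromy group is not small, then these statements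
  on Hodge classes (the equality `MT = G_mot`) are true for **all** integers `t ≥ T`, for all rational numbers `a / t` with
  `t ≥ (|a| + 2)^E`, and for the one-parameter families in all directions through `X_c`, `t ≥ (height + 2)^E`, where `E` does not
  depend on the direction.

Here is the proof of the first statement from the theorem. Let `𝔪` be the Lie algebra of the algebraic monodromy group; it is
semisimple (Deligne). Motivated classes which are invariant under the monodromy (of a finite covering) are motivated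
on all fibres (André), so that `Lie G_mot(X_t) ⊆ Lie G_mot(X_c) + 𝔪`; and the theorem gives
`Lie MT(X_t) = Lie MT(X_c) + 𝔪` for one hundred per cent of the `t`, since the reductive Lie algebra on the right side is given
by its invariant tensors. So `MT = G_mot` for `X_c` gives `MT = G_mot` for `X_t`. By the theorems of Serre and Terasoma (Hilbert's
irreducibility theorem for `ℓ`-adic representations) the Lie algebra of `G_ℓ(X_t)` is `Lie G_ℓ(X_c) + 𝔪 ⊗ ℚ_ℓ` for all `t` outside a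
thin set. So `MT ⊗ ℚ_ℓ = G_ℓ` (up to finite index) for `X_c` gives it for `X_t`. Nothing of this was known for
explicit fibres if the family is not of abelian type, since then the Hodge classes are not known to be absolute: the `ℓ`-adic groups
of one hundred per cent of the fibres are big, but their Mumford-Tate groups could be small.

**Setting.** Let `V_x` be (a part of) the cohomology of `X_x`. The period matrix near `x = 0` with respect to a de Rham basis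
adapted to the Hodge filtration and to a Betti basis is `P(x) = C exp (M log x) Z(x)`, where `Z` is an `n × n` matrix of
G-functions over `ℚ`, `M` is the logarithm of the local monodromy (`M = 0` if the fibre over `0` is smooth) and `C` is the matrix of
the central periods. The column `b` of `P` is in `F^(lev b)`, and the columns with `lev b ≥ p` span `F^p`. Let `V_0` be any other
Hodge structure, with the period matrix `C₀`. Up to one common factor the entries of `C` and `C₀` are algebraic over a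
field generated by `s` numbers (no condition on `s` in part (2)). We put `r = s` if `M = 0` and `r = s + 1` otherwise. Let `𝔤` be a
space of infinitesimal symmetries `X` of `Z`: the relations of `Z` over `ℂ[x]` hold to first order for `(1 + ε X) Z`. If
this is the Lie algebra of the differential Galois group then `C 𝔤 C⁻¹` is the Lie algebra of the Zariski closure of the
monodromy group, acting on the Betti cohomology.

The Hodge structure on `V_t` is given by the operator `φ` which is `p` on `V^(p, w - p)`; it splits the Hodge filtration. A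
rational tensor `f` in `V_0^(⊗ d₀) ⊗ V_(t_(τ 1)) ⊗ … ⊗ V_(t_(τ d))` is a Hodge class if it is in the eigenspace of `φ` for some
integer `q`. (Tensors with duals are included since the Hodge structures are polarised.) By the theorem of the fixed part
(Deligne) the difference `φ_t - φ_c` of the Hodge operators of the fibres `X_t` and `X_c`, after parallel transport, is in
`𝔪 ⊗ ℂ`, and `[φ_c, 𝔪] ⊆ 𝔪`: these are our assumptions on `φ_c`.

**Theorem.** Let `𝔪 ⊆ C 𝔤 C⁻¹` be a rational perfect Lie algebra and let `φ_c` be an operator which normalises `𝔪`.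

1. There are `G` (which depends only on the family) and `E` such that for **all** `t_1, …, t_N` which are distinct, congruent
   modulo `G`, with `(t_i - t_j + 2)^E ≤ t_j` (for `N = 1` these are all `t ≥ 2^E`), if `φ_(t_j) - φ_c ∈ 𝔪` and `Codimension c`
   (proper rational subalgebras of `𝔪` which are normalised by `φ_(t_j)` have codimension at least `c` on the part of
   negative degree; this is always true for `c = 1`, see (2)), then there is a set `S` of at most `r / c` indices such that for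
   **all** tensors `f` in **all** spaces `V_0^(⊗ d₀) ⊗ V_(t_(τ 1)) ⊗ … ⊗ V_(t_(τ d))` with `τ l ∉ S`: `f` is a Hodge class if and only
   if it is a Hodge class for `φ₀`, `φ_c` and killed by `0 ⊕ 𝔪^N`. So for `r < c` this is true without exceptions.
2. For **all** `C₀`, `C` there are `K` and `δ > 0` such that for all sums `𝔪` of `k` nonabelian Lie algebras which are simple
   over `ℚ` (for example the Lie algebras of the algebraic monodromy groups of families) the equivalence in (1) (for `N = 1`, `S`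
   empty) is true for all `t ≤ x` except for at most `k K x^(1 - δ)`; here `φ_t` is a Hodge operator, `conj φ_t = w - φ_t`,
   which normalises the simple factors and does not commute with them, and `φ_t - φ_c ∈ 𝔪`.
3. For uniform families `(Z_(i, 1), …, Z_(i, N))`, `i ∈ I`, of height `H_i` (`UniformFamily`: G-systems of bounded degree whose
   constants, and relations between words whose degrees are bounded and whose coefficients, are bounded by a power of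
   `H_i + 2`) such that `𝔤^N` consists of infinitesimal symmetries there is `E` such that (1) is true for **all** `i ∈ I`, **all**
   integers `t ≥ (H_i + 2)^E`, **all** complex numbers `L` and `P_j = C exp (-L M) Z_(i, j)(1 / t)` (for `L = log t` these are the
   period matrices). In particular for one family (1) is true for `N = 1` at **all** rational points `a / t`, `a ≠ 0`,
   `t ≥ (|a| + 2)^E`.

Our theorem `IntegralPointsAnyMonodromy` (on `MP_0704bf_ag`) says that rational Lie algebras which contain the Hodge operators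
contain `𝔪`, for tuples in windows and for one hundred per cent of the integers. New here are the description of all Hodge tensors
by those of the fibre over `c`, and part (3). The theorem `AllMembersOfPencils` (on `MP_e12fcd_ag`) is on the symplectic and
orthogonal groups, where all Hodge tensors are given by polarisations.

Proof (`Pool/Agent/Helper880_EX`, `Helper880_ZP`, `Helper880_UN`). The block matrices which multiply all Hodge tensors by scalars form a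
rational Lie algebra `𝔥` which contains `φ`. By our theorem on `MP_d83ecd_ag` the codimension of `𝔥 + Stab F` in the Lie algebra
of the monodromy groups of the `V_(t_j)` is at most `r`: in an ultraproduct of counterexamples there is for each `A ∈ 𝔤`
and each `j` a derivation `δ` of `ℂ^*` over `ℚ^*` which moves only the `j`-th value `Z(1 / t_j)`, in the direction of `A`,
and the constants; it respects `𝔥`, so that `δ(P) P⁻¹` is in `𝔥 + Stab F`. Hence for all `j` outside a set `S` of at most `r / c`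
blocks all elements of `𝔪` in the block `j` lift to elements of `𝔥` which vanish on `V_0` and on the other blocks `i ∉ S`. As `𝔪` is
perfect these elements kill the Hodge tensors on the blocks outside `S`. On tensors which are killed by `0 ⊕ 𝔪^N` the operators
`φ_(t_j)` and `φ_c` agree.
-/

set_option autoImplicit false

open PowerSeries Filter
open scoped Matrix

namespace Pool.Agent.Results.MP_b8862a_ag.FromOneFibre

/-- an integer polynomial as a power series with rational coefficients -/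
noncomputable def toQ (P : Polynomial ℤ) : PowerSeries ℚ := ((P.map (Int.castRingHom ℚ) : Polynomial ℚ) : PowerSeries ℚ)

/-- the power series `P(u^e)` -/
noncomputable def atPow (e : ℕ) (P : Polynomial ℤ) : PowerSeries ℂ :=
  ((Polynomial.expand ℂ e (P.map (Int.castRingHom ℂ)) : Polynomial ℂ) : PowerSeries ℂ)

/-- the matrices `G_s` over `ℤ[x]` with `T^s y^(s) = G_s y` for all solutions `y` of `T y' = A y` -/
noncomputable def iter {r : ℕ} (T : Polynomial ℤ) (A : Fin r → Fin r → Polynomial ℤ) : ℕ → Fin r → Fin r → Polynomial ℤ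
  | 0 => fun i j => if i = j then 1 else 0
  | s + 1 => fun i j => T * Polynomial.derivative (iter T A s i j) + ∑ l, iter T A s i l * A l j -
      (s : Polynomial ℤ) * (Polynomial.derivative T * iter T A s i j)

/-- The system `T y' = A y` has a fundamental matrix of solutions of the form `u^(-M) ∑_n Φ_n(u) (log u)^n` with
`u^e = x` and convergent power series `Φ_n`: the point `0` is regular or a regular singularity with rational
exponents. -/
def QuasiUnipotent {r : ℕ} (T : Polynomial ℤ) (A : Fin r → Fin r → Polynomial ℤ) : Prop :=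
  ∃ (e M : ℕ) (K : ℝ) (Φ : Matrix (Fin r) (Fin r) (Polynomial (PowerSeries ℂ))), 1 ≤ e ∧ Φ.det ≠ 0 ∧
    (∀ i j n m, ‖coeff m ((Φ i j).coeff n)‖ ≤ K ^ (m + 1)) ∧
    ∀ i j n, atPow e T * (X * PowerSeries.derivative ℂ ((Φ i j).coeff n) +
        ((n : PowerSeries ℂ) + 1) * (Φ i j).coeff (n + 1) - (M : PowerSeries ℂ) * (Φ i j).coeff n) =
      (e : PowerSeries ℂ) * X ^ e * ∑ l, atPow e (A i l) * (Φ l j).coeff n

/-- `h_1, ..., h_r` are G-functions with rational coefficients which solve the differential system `T y' = A y`, with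
the conditions of Siegel and Galochkin, and `0` is a regular point or a regular singularity with rational exponents of
the system. -/
structure GFamily {r : ℕ} (T : Polynomial ℤ) (A : Fin r → Fin r → Polynomial ℤ) (h : Fin r → PowerSeries ℚ) : Prop where
  /-- the denominator is not zero -/
  T_ne : T ≠ 0
  /-- the differential equations -/
  ode : ∀ i, toQ T * PowerSeries.derivative ℚ (h i) = ∑ j, toQ (A i j) * h j
  /-- the coefficients have geometric growth -/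
  size : ∃ C : ℝ, ∀ i m, |((coeff m (h i) : ℚ) : ℝ)| ≤ C ^ (m + 1)
  /-- the common denominators of the coefficients have geometric growth -/
  den : ∃ C : ℝ, ∀ m : ℕ, ∃ d : ℕ, 0 < d ∧ (d : ℝ) ≤ C ^ (m + 1) ∧ ∀ i, ∀ j ≤ m, ∃ a : ℤ, (d : ℚ) * coeff j (h i) = a
  /-- Galochkin's condition: the common denominators of the matrices `G_s / s!` have geometric growth -/
  galochkin : ∃ C : ℝ, ∀ m : ℕ, ∃ d : ℕ, 0 < d ∧ (d : ℝ) ≤ C ^ (m + 1) ∧ ∀ s ≤ m, ∀ i j,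
    ∃ H : Polynomial ℤ, (d : Polynomial ℤ) * iter T A s i j = (s.factorial : Polynomial ℤ) * H
  /-- the local exponents at `0` are rational and the singularity is regular -/
  regular : QuasiUnipotent T A

section family
variable {n : ℕ}

/-- the entries of a matrix -/
def entries (Z : Matrix (Fin n) (Fin n) (PowerSeries ℚ)) : Fin (n * n) → PowerSeries ℚ := fun a =>
  Z (finProdFinEquiv.symm a).1 (finProdFinEquiv.symm a).2

/-- rational matrices as complex matrices -/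
def toC (M : Matrix (Fin n) (Fin n) ℚ) : Matrix (Fin n) (Fin n) ℂ := M.map fun x : ℚ => (x : ℂ)

/-- the matrix `Z(1 / t)` -/
noncomputable def value (Z : Matrix (Fin n) (Fin n) (PowerSeries ℚ)) (t : ℕ) : Matrix (Fin n) (Fin n) ℂ :=
  Matrix.of fun i j => ((∑' k : ℕ, ((coeff k (Z i j) : ℚ) : ℝ) * (1 / (t : ℝ)) ^ k : ℝ) : ℂ)

/-- the period matrix `C exp (M log x) Z(x)` at `x = 1 / t` -/
noncomputable def period (C : Matrix (Fin n) (Fin n) ℂ) (M : Matrix (Fin n) (Fin n) ℚ)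
    (Z : Matrix (Fin n) (Fin n) (PowerSeries ℚ)) (t : ℕ) : Matrix (Fin n) (Fin n) ℂ :=
  C * (NormedSpace.exp ((-((Real.log (t : ℝ) : ℝ) : ℂ)) • toC M) * value Z t)

/-- the matrix `Z(u)` for a real number `u` -/
noncomputable def valueAt (Z : Matrix (Fin n) (Fin n) (PowerSeries ℚ)) (u : ℝ) : Matrix (Fin n) (Fin n) ℂ :=
  Matrix.of fun i j => ((∑' k : ℕ, ((coeff k (Z i j) : ℚ) : ℝ) * u ^ k : ℝ) : ℂ)

/-- the matrix `C exp (-L M) Z(u)`; it is the period matrix at `u = x` if `L = -log x` -/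
noncomputable def periodAt (C : Matrix (Fin n) (Fin n) ℂ) (M : Matrix (Fin n) (Fin n) ℚ) (L : ℂ)
    (Z : Matrix (Fin n) (Fin n) (PowerSeries ℚ)) (u : ℝ) : Matrix (Fin n) (Fin n) ℂ :=
  C * (NormedSpace.exp ((-L) • toC M) * valueAt Z u)

/-- the matrix of power series with complex coefficients -/
noncomputable def overC (Z : Matrix (Fin n) (Fin n) (PowerSeries ℚ)) : Matrix (Fin n) (Fin n) (PowerSeries ℂ) :=
  Z.map (PowerSeries.map (algebraMap ℚ ℂ))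

/-- `X` is an infinitesimal symmetry of `Z`: for all polynomial relations `R(x, Z(x)) = 0` over `ℂ[x]` the derivative of
`R(x, (1 + ε X) Z(x))` at `ε = 0` is zero. -/
def Symmetry (Z : Matrix (Fin n) (Fin n) (PowerSeries ℚ)) (X : Matrix (Fin n) (Fin n) ℂ) : Prop :=
  ∀ R : MvPolynomial (Fin n × Fin n) (Polynomial ℂ), MvPolynomial.aeval (fun b => overC Z b.1 b.2) R = 0 →
    ∑ b, MvPolynomial.aeval (fun b => overC Z b.1 b.2) (MvPolynomial.pderiv b R) *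
      (X.map (PowerSeries.C (R := ℂ)) * overC Z) b.1 b.2 = 0

/-- up to a common factor the entries of `C₀` and `C` are algebraic over a field generated by `s` numbers -/
def FewPeriods {r : ℕ} (s : ℕ) (C₀ : Matrix (Fin r) (Fin r) ℂ) (C : Matrix (Fin n) (Fin n) ℂ) : Prop :=
  ∃ (b : Fin s → ℂ) (κ : ℂ), κ ≠ 0 ∧ (∀ i j, IsAlgebraic (IntermediateField.adjoin ℚ (Set.range b)) (κ * C₀ i j)) ∧
    ∀ i j, IsAlgebraic (IntermediateField.adjoin ℚ (Set.range b)) (κ * C i j)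

end family

section uniform
variable {σ : Type} [Fintype σ]

/-- the divided derivative `f^(k) / k!` of a power series -/
noncomputable def divided (k : ℕ) (f : PowerSeries ℚ) : PowerSeries ℚ :=
  PowerSeries.mk fun m => ((m + k).choose k : ℚ) * coeff (m + k) f

/-- The power series `h_s` are a G-system with the denominator `T`, the degree `q` and the constant `C`: the coefficients and
their common denominators satisfy the conditions of Siegel with the constant `C`, and `T^s h^(s) / s!` is `G_s h`, where the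
degrees and coefficients of the matrices `G_s` and their common denominators satisfy the condition of Galochkin. -/
structure GSystem (q : ℕ) (C : ℝ) (T : Polynomial ℤ) (h : σ → PowerSeries ℚ) : Prop where
  one_le : 1 ≤ C
  degT : T.natDegree ≤ q
  sizeT : ∀ l, |((T.coeff l : ℤ) : ℝ)| ≤ C
  size : ∀ i m, |((coeff m (h i) : ℚ) : ℝ)| ≤ C ^ (m + 1)
  den : ∀ m, ∃ d : ℕ, 0 < d ∧ (d : ℝ) ≤ C ^ (m + 1) ∧ ∀ i, ∀ j ≤ m, ∃ a : ℤ, (d : ℚ) * coeff j (h i) = a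
  der : ∀ k, ∃ g : ℕ, 0 < g ∧ (g : ℝ) ≤ C ^ (k + 1) ∧ ∀ s ≤ k, ∃ G : σ → σ → Polynomial ℤ,
    (∀ i j, (G i j).natDegree ≤ q * s) ∧ (∀ i j l, |(((G i j).coeff l : ℤ) : ℝ)| ≤ C ^ (k + 1)) ∧
    ∀ i, (g : PowerSeries ℚ) * (toQ T ^ s * divided s (h i)) = ∑ j, toQ (G i j) * h j

/-- the words of length `δ` in the power series `1` and `h_s` -/
noncomputable def word {δ : ℕ} (h : σ → PowerSeries ℚ) (b : Fin δ → Option σ) : PowerSeries ℚ := ∏ j, (b j).elim 1 h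

/-- integer polynomials of degree at most `E` with coefficients of size at most `(H + 2)^E` -/
def Bounded (E H : ℕ) (P : Polynomial ℤ) : Prop := P.natDegree ≤ E ∧ ∀ l, |((P.coeff l : ℤ) : ℝ)| ≤ ((H : ℝ) + 2) ^ E

/-- The families `h_i` (`i ∈ I`) of power series are G-systems of bounded degree whose constants are bounded by a power of
`H_i + 2`, and the same is true for the relations over `ℚ(x)` between the words of each length: there is a basis `B` of the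
span of the words such that the coordinates of all words are small. -/
structure UniformFamily {I : Type} (H : I → ℕ) (h : I → σ → PowerSeries ℚ) : Prop where
  system : ∃ q E : ℕ, ∀ i, ∃ T : Polynomial ℤ, T ≠ 0 ∧ GSystem q (((H i : ℝ) + 2) ^ E) T (h i)
  relations : ∀ δ : ℕ, ∃ E : ℕ, ∀ i, ∃ (B : Finset (Fin δ → Option σ)) (a : Polynomial ℤ)
    (M : (Fin δ → Option σ) → B → Polynomial ℤ), (fun _ => none) ∈ B ∧
    LinearIndependent (Polynomial ℚ) (fun b : B => word (h i) b.1) ∧ a ≠ 0 ∧ Bounded E (H i) a ∧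
    (∀ b β, Bounded E (H i) (M b β)) ∧ ∀ b, toQ a * word (h i) b = ∑ β, toQ (M b β) * word (h i) β.1

/-- the entries of the matrices `Z_1, …, Z_N` -/
def allEntries {n N : ℕ} (Z : Fin N → Matrix (Fin n) (Fin n) (PowerSeries ℚ)) (a : Fin N × Fin n × Fin n) : PowerSeries ℚ :=
  Z a.1 a.2.1 a.2.2

/-- `(X_1, …, X_N)` is an infinitesimal symmetry of `(Z_1, …, Z_N)`: for all polynomial relations `R(x, Z_1(x), …, Z_N(x)) = 0`
over `ℂ[x]` the derivative of `R(x, (1 + ε X_1) Z_1(x), …, (1 + ε X_N) Z_N(x))` at `ε = 0` is zero. -/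
def JointSymmetry {n N : ℕ} (Z : Fin N → Matrix (Fin n) (Fin n) (PowerSeries ℚ)) (X : Fin N → Matrix (Fin n) (Fin n) ℂ) : Prop :=
  ∀ R : MvPolynomial (Fin N × Fin n × Fin n) (Polynomial ℂ), MvPolynomial.aeval (fun b => overC (Z b.1) b.2.1 b.2.2) R = 0 →
    ∑ b, MvPolynomial.aeval (fun b => overC (Z b.1) b.2.1 b.2.2) (MvPolynomial.pderiv b R) *
      ((X b.1).map (PowerSeries.C (R := ℂ)) * overC (Z b.1)) b.2.1 b.2.2 = 0

end uniform

section hodge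
variable {B : Type} [Fintype B] [DecidableEq B]

/-- The Hodge filtration `F^p`: it is spanned by the columns `b` of the period matrix with `p ≤ lev b`. -/
def hodge (lev : B → ℤ) (P : Matrix B B ℂ) (p : ℤ) : Submodule ℂ (B → ℂ) :=
  Submodule.span ℂ {v | ∃ b, p ≤ lev b ∧ v = fun i => P i b}

/-- `φ` splits the Hodge filtration: `F^p` is the sum of the eigenspaces of `φ` for the integral eigenvalues `q ≥ p`. -/
def Splits (lev : B → ℤ) (P φ : Matrix B B ℂ) : Prop :=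
  ∀ p, hodge lev P p = Submodule.span ℂ {v | ∃ q : ℤ, p ≤ q ∧ φ *ᵥ v = (q : ℂ) • v}

end hodge

section
variable {n N r₀ : ℕ}

/-- the block matrix `x ⊕ X_1 ⊕ … ⊕ X_N` -/
def total (x : Matrix (Fin r₀) (Fin r₀) ℂ) (X : Fin N → Matrix (Fin n) (Fin n) ℂ) :
    Matrix (Fin r₀ ⊕ (Fin n × Fin N)) (Fin r₀ ⊕ (Fin n × Fin N)) ℂ :=
  Matrix.fromBlocks x 0 0 (Matrix.blockDiagonal X)

/-- `C 𝔤 C⁻¹` -/
def conjugate (C : Matrix (Fin n) (Fin n) ℂ) (𝔤 : Submodule ℂ (Matrix (Fin n) (Fin n) ℂ)) :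
    Submodule ℂ (Matrix (Fin n) (Fin n) ℂ) where
  carrier := {Y | ∃ X ∈ 𝔤, Y = C * X * C⁻¹}
  zero_mem' := ⟨0, 𝔤.zero_mem, by rw [Matrix.mul_zero, Matrix.zero_mul]⟩
  add_mem' := by
    rintro _ _ ⟨X, hX, rfl⟩ ⟨Y, hY, rfl⟩
    exact ⟨X + Y, 𝔤.add_mem hX hY, by rw [Matrix.mul_add, Matrix.add_mul]⟩
  smul_mem' := by
    rintro c _ ⟨X, hX, rfl⟩
    exact ⟨c • X, 𝔤.smul_mem c hX, by rw [Matrix.mul_smul, Matrix.smul_mul]⟩

end

section lie
variable {B : Type}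

/-- the space is spanned by rational matrices -/
def IsRational (W : Submodule ℂ (Matrix B B ℂ)) : Prop :=
  W ≤ Submodule.span ℂ {X | X ∈ W ∧ ∀ a b, ∃ q : ℚ, X a b = q}

variable [Fintype B]

/-- the space is a Lie algebra -/
def IsLie (W : Submodule ℂ (Matrix B B ℂ)) : Prop := ∀ X ∈ W, ∀ Y ∈ W, X * Y - Y * X ∈ W

/-- the Lie algebra is spanned by commutators -/
def IsPerfect (𝔪 : Submodule ℂ (Matrix B B ℂ)) : Prop :=
  𝔪 ≤ Submodule.span ℂ {W | ∃ X ∈ 𝔪, ∃ Y ∈ 𝔪, W = X * Y - Y * X}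

/-- `φ` normalises `𝔪` -/
def Normalises (φ : Matrix B B ℂ) (𝔪 : Submodule ℂ (Matrix B B ℂ)) : Prop := ∀ Y ∈ 𝔪, φ * Y - Y * φ ∈ 𝔪

/-- the space which is spanned by the elements `X` of `𝔪` such that `[φ, X] = a X` with a negative integer `a` -/
def negative (𝔪 : Submodule ℂ (Matrix B B ℂ)) (φ : Matrix B B ℂ) : Submodule ℂ (Matrix B B ℂ) :=
  Submodule.span ℂ {X | X ∈ 𝔪 ∧ ∃ a : ℤ, a < 0 ∧ φ * X - X * φ = (a : ℂ) • X}

/-- For all rational Lie algebras `𝔫` in `𝔪`, `𝔫 ≠ 𝔪`, which are normalised by `φ` the codimension of `𝔫 ∩ 𝔪^-` in `𝔪^-` is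
at least `c`. -/
def Codimension (c : ℕ) (𝔪 : Submodule ℂ (Matrix B B ℂ)) (φ : Matrix B B ℂ) : Prop :=
  ∀ 𝔫 : Submodule ℂ (Matrix B B ℂ), 𝔫 ≤ 𝔪 → IsRational 𝔫 → IsLie 𝔫 → Normalises φ 𝔫 → 𝔫 ≠ 𝔪 →
    Module.finrank ℂ (negative 𝔪 φ ⊓ 𝔫 : Submodule ℂ (Matrix B B ℂ)) + c ≤ Module.finrank ℂ (negative 𝔪 φ)

/-- `𝔪` is a rational Lie algebra which is not abelian and has no rational ideals except `0` and `𝔪`. -/
structure IsSimpleOverRationals (𝔪 : Submodule ℂ (Matrix B B ℂ)) : Prop where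
  /-- it is spanned by rational matrices -/
  rational : IsRational 𝔪
  /-- it is a Lie algebra -/
  lie : IsLie 𝔪
  /-- it is not abelian -/
  nonabelian : ∃ X ∈ 𝔪, ∃ Y ∈ 𝔪, X * Y ≠ Y * X
  /-- there are no rational ideals except `0` and `𝔪` -/
  simple : ∀ 𝔦 : Submodule ℂ (Matrix B B ℂ), 𝔦 ≤ 𝔪 → IsRational 𝔦 → (∀ X ∈ 𝔪, ∀ Y ∈ 𝔦, X * Y - Y * X ∈ 𝔦) → 𝔦 ≠ ⊥ → 𝔦 = 𝔪

end lie

section tensors
variable {n N r₀ : ℕ}

/-- The tensor `f` in `V_0^(⊗ d₀) ⊗ V_(τ 1) ⊗ … ⊗ V_(τ d)` is a Hodge class for the operators `φ₀`, `φ_1, …, φ_N`: it is an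
eigenvector, with an integral eigenvalue `q`. -/
def IsHodge {d₀ d : ℕ} (φ₀ : Matrix (Fin r₀) (Fin r₀) ℂ) (φ : Fin N → Matrix (Fin n) (Fin n) ℂ) (τ : Fin d → Fin N)
    (f : (Fin d₀ → Fin r₀) → (Fin d → Fin n) → ℚ) : Prop :=
  ∃ q : ℤ, ∀ x y, (∑ k, ∑ a, φ₀ (x k) a * (f (Function.update x k a) y : ℂ)) +
    (∑ l, ∑ a, φ (τ l) (y l) a * (f x (Function.update y l a) : ℂ)) = q * (f x y : ℂ)

/-- The tensor `f` in `V_0^(⊗ d₀) ⊗ V_(τ 1) ⊗ … ⊗ V_(τ d)` is killed by `0 ⊕ 𝔪^N`: for all `j` and all `X ∈ 𝔪` the sum of the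
actions of `X` on the factors `V_(τ l)` with `τ l = j` is zero. -/
def Invariant {d₀ d : ℕ} (𝔪 : Submodule ℂ (Matrix (Fin n) (Fin n) ℂ)) (τ : Fin d → Fin N)
    (f : (Fin d₀ → Fin r₀) → (Fin d → Fin n) → ℚ) : Prop :=
  ∀ j, ∀ X ∈ 𝔪, ∀ x y, ∑ l, (if τ l = j then ∑ a, X (y l) a * (f x (Function.update y l a) : ℂ) else 0) = 0

/-- For all `c`, all rational perfect Lie algebras `𝔪` in `𝔤'`, all operators `φ₀`, `φ_j` which split the Hodge
filtrations with the period matrices `C₀`, `P_j`, and all `φc` which normalise `𝔪`, with `φ_j - φc ∈ 𝔪` and `Codimension c`, there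
is a set `S` of at most `r / c` indices such that for all tensors `f` in spaces `V_0^(⊗ d₀) ⊗ V_(τ 1) ⊗ … ⊗ V_(τ d)` with
`τ l ∉ S`: `f` is a Hodge class for `φ₀`, `φ_j` if and only if it is a Hodge class for `φ₀`, `φc` and invariant. -/
def FewExceptions (r : ℕ) (𝔤' : Submodule ℂ (Matrix (Fin n) (Fin n) ℂ)) (lev₀ : Fin r₀ → ℤ) (lev : Fin n → ℤ)
    (C₀ : Matrix (Fin r₀) (Fin r₀) ℂ) (P : Fin N → Matrix (Fin n) (Fin n) ℂ) : Prop :=
  ∀ (c : ℕ) (𝔪 : Submodule ℂ (Matrix (Fin n) (Fin n) ℂ)) (φ₀ : Matrix (Fin r₀) (Fin r₀) ℂ) (φc : Matrix (Fin n) (Fin n) ℂ)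
    (φ : Fin N → Matrix (Fin n) (Fin n) ℂ), 𝔪 ≤ 𝔤' → IsRational 𝔪 → IsLie 𝔪 → IsPerfect 𝔪 → Normalises φc 𝔪 →
    Splits lev₀ C₀ φ₀ → (∀ j, Splits lev (P j) (φ j)) → (∀ j, φ j - φc ∈ 𝔪) → (∀ j, Codimension c 𝔪 (φ j)) →
    ∃ S : Finset (Fin N), S.card * c ≤ r ∧
      ∀ (d₀ d : ℕ) (τ : Fin d → Fin N) (f : (Fin d₀ → Fin r₀) → (Fin d → Fin n) → ℚ), (∀ l, τ l ∉ S) →
        (IsHodge φ₀ φ τ f ↔ IsHodge φ₀ (fun _ : Fin N => φc) τ f ∧ Invariant 𝔪 τ f)

/-- The integer `t` is exceptional, relative to `V_0`, `φc` and `𝔪 = ∑ 𝔦_l`: there are a Hodge operator `φ` on `V_t` (it splits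
the Hodge filtration, and its complex conjugate is `w - φ`), which normalises each `𝔦_l`, does not commute with `𝔦_l` and is in
`φc + 𝔪`, and a tensor `f` in a space `V_0^(⊗ d₀) ⊗ V_t^(⊗ d)` such that it is not true that `f` is a Hodge class if and only
if it is a Hodge class for `φ₀`, `φc` and invariant under `𝔪`. -/
def Exceptional {k : ℕ} (C : Matrix (Fin n) (Fin n) ℂ) (M : Matrix (Fin n) (Fin n) ℚ)
    (Z : Matrix (Fin n) (Fin n) (PowerSeries ℚ)) (lev : Fin n → ℤ) (φ₀ : Matrix (Fin r₀) (Fin r₀) ℂ)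
    (φc : Matrix (Fin n) (Fin n) ℂ) (𝔦 : Fin k → Submodule ℂ (Matrix (Fin n) (Fin n) ℂ)) (t : ℕ) : Prop :=
  IsUnit (period C M Z t) ∧ ∃ φ, Splits lev (period C M Z t) φ ∧
    (∃ w : ℤ, φ.map star = (w : ℂ) • (1 : Matrix (Fin n) (Fin n) ℂ) - φ) ∧ (∀ l, Normalises φ (𝔦 l)) ∧
    (∀ l, ∃ X ∈ 𝔦 l, φ * X ≠ X * φ) ∧ φ - φc ∈ ⨆ l, 𝔦 l ∧
    ∃ (d₀ d : ℕ) (f : (Fin d₀ → Fin r₀) → (Fin d → Fin n) → ℚ),
      ¬ (IsHodge φ₀ (fun _ : Fin 1 => φ) (fun _ => 0) f ↔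
        IsHodge φ₀ (fun _ : Fin 1 => φc) (fun _ => 0) f ∧ Invariant (⨆ l, 𝔦 l) (fun _ : Fin d => (0 : Fin 1)) f)

end tensors

/-- the numbers `t_j` are distinct and congruent modulo `G`, and `(t_i - t_j + 2)^E ≤ t_j` -/
def InWindow (G E : ℕ) {N : ℕ} (t : Fin N → ℕ) : Prop :=
  Function.Injective t ∧ (∀ i j, t i ≡ t j [MOD G]) ∧ ∀ i j, (t i - t j + 2) ^ E ≤ t j

/-- For all `c`, all rational perfect Lie algebras `𝔪` in `𝔤'`, all operators `φ₀`, `φ_j` which split the Hodge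
filtrations with the period matrices `C₀`, `P_j` such that `φ_j` normalises `𝔪`, and `Codimension c`, and for all rational Lie
algebras `𝔥` which contain `φ₀ ⊕ φ_1 ⊕ … ⊕ φ_N` there is a set `S` of at most `r / c` indices such that for `j ∉ S` every
element of `𝔪` in the block `j` can be lifted to an element of `𝔥` which is zero on `V_0` and on the other blocks `i ∉ S`. -/
def LieFew {n N r₀ : ℕ} (r : ℕ) (𝔤' : Submodule ℂ (Matrix (Fin n) (Fin n) ℂ)) (lev₀ : Fin r₀ → ℤ) (lev : Fin n → ℤ)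
    (C₀ : Matrix (Fin r₀) (Fin r₀) ℂ) (P : Fin N → Matrix (Fin n) (Fin n) ℂ) : Prop :=
  ∀ (c : ℕ) (𝔪 : Submodule ℂ (Matrix (Fin n) (Fin n) ℂ)) (φ₀ : Matrix (Fin r₀) (Fin r₀) ℂ)
    (φ : Fin N → Matrix (Fin n) (Fin n) ℂ), 𝔪 ≤ 𝔤' → IsRational 𝔪 → IsLie 𝔪 → IsPerfect 𝔪 →
    Splits lev₀ C₀ φ₀ → (∀ j, Splits lev (P j) (φ j)) → (∀ j, Normalises (φ j) 𝔪) → (∀ j, Codimension c 𝔪 (φ j)) →
    ∀ 𝔥 : Submodule ℂ (Matrix (Fin r₀ ⊕ (Fin n × Fin N)) (Fin r₀ ⊕ (Fin n × Fin N)) ℂ), IsRational 𝔥 → IsLie 𝔥 →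
      total φ₀ φ ∈ 𝔥 → ∃ S : Finset (Fin N), S.card * c ≤ r ∧ ∀ j ∉ S, ∀ X ∈ 𝔪,
        ∃ Y : Fin N → Matrix (Fin n) (Fin n) ℂ, (∀ i, Y i ∈ 𝔪) ∧ total 0 Y ∈ 𝔥 ∧ Y j = X ∧ ∀ i ∉ S, i ≠ j → Y i = 0

/-- The integer `t` is in the Hodge locus, relative to `V_0` and `𝔪 = ∑ 𝔦_l`: there are a Hodge operator `φ` on `V_t` (it splits
the Hodge filtration, and its complex conjugate is `w - φ`), which normalises each `𝔦_l` and does not commute with `𝔦_l`, and a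
rational Lie algebra `𝔥` which contains `φ₀ ⊕ φ` but not `0 ⊕ 𝔪`. -/
def InLocus {n r₀ k : ℕ} (C : Matrix (Fin n) (Fin n) ℂ) (M : Matrix (Fin n) (Fin n) ℚ)
    (Z : Matrix (Fin n) (Fin n) (PowerSeries ℚ)) (lev : Fin n → ℤ) (φ₀ : Matrix (Fin r₀) (Fin r₀) ℂ)
    (𝔦 : Fin k → Submodule ℂ (Matrix (Fin n) (Fin n) ℂ)) (t : ℕ) : Prop :=
  IsUnit (period C M Z t) ∧ ∃ φ, Splits lev (period C M Z t) φ ∧
    (∃ w : ℤ, φ.map star = (w : ℂ) • (1 : Matrix (Fin n) (Fin n) ℂ) - φ) ∧ (∀ l, Normalises φ (𝔦 l)) ∧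
    (∀ l, ∃ X ∈ 𝔦 l, φ * X ≠ X * φ) ∧
    ∃ 𝔥 : Submodule ℂ (Matrix (Fin r₀ ⊕ (Fin n × Fin 1)) (Fin r₀ ⊕ (Fin n × Fin 1)) ℂ), IsRational 𝔥 ∧ IsLie 𝔥 ∧
      total φ₀ (fun _ => φ) ∈ 𝔥 ∧ ∃ X ∈ ⨆ l, 𝔦 l, total 0 (fun _ => X) ∉ 𝔥

theorem iter_eq {r : ℕ} (T : Polynomial ℤ) (A : Fin r → Fin r → Polynomial ℤ) (s : ℕ) :
    iter T A s = Pool.Agent.Y120.GH.itm T A s := by
  induction s with
  | zero => rfl
  | succ s ih =>
    funext i j
    rw [iter, Pool.Agent.Y120.GH.itm, ih]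

theorem qu_eq {r : ℕ} {T : Polynomial ℤ} {A : Fin r → Fin r → Polynomial ℤ} (h : QuasiUnipotent T A) :
    Pool.Agent.Y120.GH.QU0 T A := by
  obtain ⟨e, M, K, Φ, he, hdet, hc, heq⟩ := h
  have he0 : e ≠ 0 := by omega
  refine ⟨e, he0, M, K, Φ, hc, fun i j n => ?_, hdet⟩
  have h1 := heq i j n
  simp only [atPow] at h1
  rw [Pool.Agent.Y120.GH.expand_poly he0]
  simp only [Pool.Agent.Y120.GH.expand_poly he0]
  exact h1

theorem gal_eq {r : ℕ} {T : Polynomial ℤ} {A : Fin r → Fin r → Polynomial ℤ} {h : Fin r → PowerSeries ℚ}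
    (hG : GFamily T A h) : ∃ C : ℝ, ∀ m, ∃ d : ℕ, 0 < d ∧ (d : ℝ) ≤ C ^ (m + 1) ∧ ∀ s ≤ m, ∀ i j, ∃ H : Polynomial ℤ,
      (d : Polynomial ℤ) * Pool.Agent.Y120.GH.itm T A s i j = (s.factorial : Polynomial ℤ) * H := by
  obtain ⟨C, hC⟩ := hG.galochkin
  refine ⟨C, fun m => ?_⟩
  obtain ⟨d, h1, h2, h3⟩ := hC m
  refine ⟨d, h1, h2, fun s hs i' j' => ?_⟩
  rw [← iter_eq]
  exact h3 s hs i' j'

theorem map_eq {n : ℕ} (M : Matrix (Fin n) (Fin n) ℚ) : toC M = Pool.Agent.Y119.HY.cm M := by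
  ext i j
  rw [Pool.Agent.Y119.HY.cm_apply]
  rfl

theorem sym_inf {n : ℕ} {Z : Matrix (Fin n) (Fin n) (PowerSeries ℚ)} {X : Matrix (Fin n) (Fin n) ℂ} (h : Symmetry Z X) :
    Pool.Agent.Helper880_R3.Inf Z X := by
  intro R hR
  refine Eq.trans ?_ (h R hR)
  unfold Pool.Agent.Helper880_R3.DX
  rw [map_sum]
  refine Finset.sum_congr rfl fun b _ => ?_
  rw [map_mul, map_sum, Matrix.mul_apply]
  refine congrArg₂ (· * ·) rfl (Finset.sum_congr rfl fun l _ => ?_)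
  rw [map_mul, MvPolynomial.aeval_C, MvPolynomial.aeval_X, Matrix.map_apply, Matrix.map_apply]
  have h1 : algebraMap (Polynomial ℂ) (PowerSeries ℂ) (Polynomial.C (X b.1 l)) = PowerSeries.C (X b.1 l) :=
    Polynomial.coe_C _
  rw [h1]
  rfl

theorem alg_mem {ι : Type} (b : ι → ℂ) (k : ι) : IsAlgebraic (IntermediateField.adjoin ℚ (Set.range b)) (b k) := by
  have h1 : b k ∈ IntermediateField.adjoin ℚ (Set.range b) := IntermediateField.subset_adjoin ℚ _ ⟨k, rfl⟩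
  exact isAlgebraic_algebraMap (⟨b k, h1⟩ : IntermediateField.adjoin ℚ (Set.range b))

theorem all_few {r n : ℕ} (C₀ : Matrix (Fin r) (Fin r) ℂ) (C : Matrix (Fin n) (Fin n) ℂ) : ∃ s, FewPeriods s C₀ C := by
  set e := Fintype.equivFin ((Fin r × Fin r) ⊕ (Fin n × Fin n)) with he
  refine ⟨Fintype.card ((Fin r × Fin r) ⊕ (Fin n × Fin n)), fun k => Sum.elim (fun p => C₀ p.1 p.2) (fun p => C p.1 p.2)
    (e.symm k), 1, one_ne_zero, fun i j => ?_, fun i j => ?_⟩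
  · have h1 := alg_mem (fun k => Sum.elim (fun p => C₀ p.1 p.2) (fun p => C p.1 p.2) (e.symm k)) (e (Sum.inl (i, j)))
    rw [one_mul]
    simpa using h1
  · have h1 := alg_mem (fun k => Sum.elim (fun p => C₀ p.1 p.2) (fun p => C p.1 p.2) (e.symm k)) (e (Sum.inr (i, j)))
    rw [one_mul]
    simpa using h1

theorem total_unit {r n N : ℕ} {C₀ : Matrix (Fin r) (Fin r) ℂ} {P : Fin N → Matrix (Fin n) (Fin n) ℂ} (h₀ : IsUnit C₀)
    (h : ∀ j, IsUnit (P j)) : IsUnit (total C₀ P) := by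
  unfold total
  rw [Matrix.isUnit_fromBlocks_zero₁₂, Matrix.isUnit_iff_isUnit_det (Matrix.blockDiagonal P), Matrix.det_blockDiagonal]
  refine ⟨h₀, ?_⟩
  rw [isUnit_iff_ne_zero, Finset.prod_ne_zero_iff]
  intro j _
  exact ((Matrix.isUnit_iff_isUnit_det _).1 (h j)).ne_zero

theorem rat_eq {B : Type} {W : Submodule ℂ (Matrix B B ℂ)} :
    IsRational W ↔ Pool.Agent.Helper880_ZP.DefOver Pool.Agent.Helper880_ZP.K₀ W := by
  have h : {X | X ∈ W ∧ ∀ a b, ∃ q : ℚ, X a b = q} = {X | X ∈ W ∧ ∀ a b, X a b ∈ Pool.Agent.Helper880_ZP.K₀} := by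
    ext X
    simp only [Pool.Agent.Helper880_ZP.mem_K₀]
  unfold IsRational Pool.Agent.Helper880_ZP.DefOver
  rw [h]
  exact ⟨fun h1 => le_antisymm h1 (Submodule.span_le.2 fun X hX => hX.1), fun h1 => h1.le⟩

theorem hodge_eq {n N r₀ d₀ d : ℕ} {φ₀ : Matrix (Fin r₀) (Fin r₀) ℂ} {φ : Fin N → Matrix (Fin n) (Fin n) ℂ} {τ : Fin d → Fin N}
    {f : (Fin d₀ → Fin r₀) → (Fin d → Fin n) → ℚ} : IsHodge φ₀ φ τ f ↔
      ∃ q : ℤ, Pool.Agent.Helper880_HC.act τ φ₀ φ (Pool.Agent.Helper880_HC.tC f) = (q : ℂ) • Pool.Agent.Helper880_HC.tC f := by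
  constructor
  · rintro ⟨q, hq⟩
    refine ⟨q, ?_⟩
    funext x y
    rw [Pool.Agent.Helper880_HC.act_apply]
    exact hq x y
  · rintro ⟨q, hq⟩
    refine ⟨q, fun x y => ?_⟩
    have h1 := congrFun (congrFun hq x) y
    rw [Pool.Agent.Helper880_HC.act_apply] at h1
    exact h1

theorem inv_eq {n N r₀ d₀ d : ℕ} {𝔪 : Submodule ℂ (Matrix (Fin n) (Fin n) ℂ)} {τ : Fin d → Fin N}
    {f : (Fin d₀ → Fin r₀) → (Fin d → Fin n) → ℚ} : Invariant 𝔪 τ f ↔
      ∀ j, ∀ X ∈ 𝔪, Pool.Agent.Helper880_HC.one τ (Pool.Agent.Helper880_HC.tC f) j X = 0 := by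
  constructor
  · intro h j X hX
    funext x y
    rw [Pool.Agent.Helper880_HC.one_sum]
    exact h j X hX x y
  · intro h j X hX x y
    have h1 := congrFun (congrFun (h j X hX) x) y
    rw [Pool.Agent.Helper880_HC.one_sum] at h1
    exact h1

theorem norm_of {n : ℕ} {𝔪 : Submodule ℂ (Matrix (Fin n) (Fin n) ℂ)} {φ φc : Matrix (Fin n) (Fin n) ℂ} (hL : IsLie 𝔪)
    (h : Normalises φc 𝔪) (hd : φ - φc ∈ 𝔪) : Normalises φ 𝔪 := by
  intro Y hY
  have h1 : φ * Y - Y * φ = ((φ - φc) * Y - Y * (φ - φc)) + (φc * Y - Y * φc) := by noncomm_ring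
  rw [h1]
  exact 𝔪.add_mem (hL _ hd _ hY) (h Y hY)

theorem concl {n N r₀ r : ℕ} {𝔤 : Submodule ℂ (Matrix (Fin n) (Fin n) ℂ)} {lev₀ : Fin r₀ → ℤ} {lev : Fin n → ℤ}
    {C₀ : Matrix (Fin r₀) (Fin r₀) ℂ} {C : Matrix (Fin n) (Fin n) ℂ} {P : Fin N → Matrix (Fin n) (Fin n) ℂ}
    (hu : IsUnit (total C₀ P))
    (h : ∀ 𝔥 : Submodule ℂ (Matrix (Fin r₀ ⊕ (Fin n × Fin N)) (Fin r₀ ⊕ (Fin n × Fin N)) ℂ),
      Pool.Agent.Helper880_ZP.DefOver Pool.Agent.Helper880_ZP.K₀ 𝔥 → Pool.Agent.Helper880_ZP.Lie' 𝔥 →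
      (∃ φ ∈ 𝔥, ∃ V ∈ Pool.Agent.Helper880_ZP.upS ℂ (Pool.Agent.Helper880_ZP.Lv N lev₀ lev),
        φ * (total C₀ P * (1 + V)) = total C₀ P * (1 + V) * Pool.Agent.Helper880_ZP.Dg ℂ (Pool.Agent.Helper880_ZP.Lv N lev₀ lev)) →
      Module.finrank ℂ (Pool.Agent.Helper880_ZP.blS r₀ N (Pool.Agent.Helper880_ZP.cgS C 𝔤)) ≤
        Module.finrank ℂ (Pool.Agent.Helper880_ZP.blS r₀ N (Pool.Agent.Helper880_ZP.cgS C 𝔤) ⊓
          (𝔥 ⊔ Pool.Agent.Helper880_ZP.cjS (total C₀ P)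
            (Pool.Agent.Helper880_ZP.ppS ℂ (Pool.Agent.Helper880_ZP.Lv N lev₀ lev))) : Submodule ℂ _) + r) :
    FewExceptions r (conjugate C 𝔤) lev₀ lev C₀ P := by
  intro c 𝔪 φ₀ φc φ hm hmr hml hmp hnc h0 hsp hdiff hcod
  have hst : ∀ j, Normalises (φ j) 𝔪 := fun j => norm_of hml hnc (hdiff j)
  obtain ⟨⟨V, hV, hVe⟩, hblk⟩ := Pool.Agent.Helper880_ZP.blk hu h0 hsp
  have hud := (Matrix.isUnit_iff_isUnit_det _).1 hu
  obtain ⟨hEig, hcj⟩ := Pool.Agent.Helper880_ZP.Eig.mk' hud hV hVe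
  have hc1 := h (Pool.Agent.Helper880_EX.mtB φ₀ φ) Pool.Agent.Helper880_EX.mtB_rat Pool.Agent.Helper880_EX.mtB_lie
    ⟨_, Pool.Agent.Helper880_EX.mtB_phi, V, hV, hVe⟩
  have hc2 : Module.finrank ℂ (Pool.Agent.Helper880_ZP.blS r₀ N (Pool.Agent.Helper880_ZP.cgS C 𝔤)) ≤
      Module.finrank ℂ (Pool.Agent.Helper880_ZP.blS r₀ N (Pool.Agent.Helper880_ZP.cgS C 𝔤) ⊓
        (Pool.Agent.Helper880_EX.mtB φ₀ φ ⊔ Pool.Agent.Helper880_ZP.cjS (total C₀ P * (1 + V))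
          (Pool.Agent.Helper880_ZP.ppS ℂ (Pool.Agent.Helper880_ZP.Lv N lev₀ lev))) : Submodule ℂ _) + r := by
    rw [hcj]
    exact hc1
  have hmem : ∀ j, ∀ X ∈ 𝔪, Pool.Agent.Helper880_R3.ib j X ∈
      Pool.Agent.Helper880_ZP.blS r₀ N (Pool.Agent.Helper880_ZP.cgS C 𝔤) := fun j X hX =>
    Pool.Agent.Helper880_ZP.ib_blS (hm hX)
  obtain ⟨S, h1, h2⟩ := Pool.Agent.Helper880_EX.LH_main (c := c) hEig Pool.Agent.Helper880_EX.mtB_lie hml
    Pool.Agent.Helper880_EX.mtB_rat (rat_eq.1 hmr) hmp Pool.Agent.Helper880_EX.mtB_phi hst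
    (fun j 𝔫 k1 k2 k3 k4 k5 => hcod j 𝔫 k1 (rat_eq.2 k2) k3 k4 k5) hmem hc2
  refine ⟨S, h1, fun d₀ d τ f hτ => ?_⟩
  rw [hodge_eq, hodge_eq, inv_eq]
  exact Pool.Agent.Helper880_EX.hodge_iff hmp h2 hdiff fun l => Finset.mem_compl.2 (hτ l)

theorem lconcl {n N r₀ r : ℕ} {𝔤 : Submodule ℂ (Matrix (Fin n) (Fin n) ℂ)} {lev₀ : Fin r₀ → ℤ} {lev : Fin n → ℤ}
    {C₀ : Matrix (Fin r₀) (Fin r₀) ℂ} {C : Matrix (Fin n) (Fin n) ℂ} {P : Fin N → Matrix (Fin n) (Fin n) ℂ}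
    (hu : IsUnit (total C₀ P))
    (h : ∀ 𝔥 : Submodule ℂ (Matrix (Fin r₀ ⊕ (Fin n × Fin N)) (Fin r₀ ⊕ (Fin n × Fin N)) ℂ),
      Pool.Agent.Helper880_ZP.DefOver Pool.Agent.Helper880_ZP.K₀ 𝔥 → Pool.Agent.Helper880_ZP.Lie' 𝔥 →
      (∃ φ ∈ 𝔥, ∃ V ∈ Pool.Agent.Helper880_ZP.upS ℂ (Pool.Agent.Helper880_ZP.Lv N lev₀ lev),
        φ * (total C₀ P * (1 + V)) = total C₀ P * (1 + V) * Pool.Agent.Helper880_ZP.Dg ℂ (Pool.Agent.Helper880_ZP.Lv N lev₀ lev)) →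
      Module.finrank ℂ (Pool.Agent.Helper880_ZP.blS r₀ N (Pool.Agent.Helper880_ZP.cgS C 𝔤)) ≤
        Module.finrank ℂ (Pool.Agent.Helper880_ZP.blS r₀ N (Pool.Agent.Helper880_ZP.cgS C 𝔤) ⊓
          (𝔥 ⊔ Pool.Agent.Helper880_ZP.cjS (total C₀ P)
            (Pool.Agent.Helper880_ZP.ppS ℂ (Pool.Agent.Helper880_ZP.Lv N lev₀ lev))) : Submodule ℂ _) + r) :
    LieFew r (conjugate C 𝔤) lev₀ lev C₀ P := by
  intro c 𝔪 φ₀ φ hm hmr hml hmp h0 hsp hst hcod 𝔥 hr hL hφ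
  have hr' := rat_eq.1 hr
  have hL' : Pool.Agent.Helper880_ZP.Lie' 𝔥 := hL
  obtain ⟨⟨V, hV, hVe⟩, hblk⟩ := Pool.Agent.Helper880_ZP.blk hu h0 hsp
  have hud := (Matrix.isUnit_iff_isUnit_det _).1 hu
  obtain ⟨hEig, hcj⟩ := Pool.Agent.Helper880_ZP.Eig.mk' hud hV hVe
  have hc1 := h _ hr' hL' ⟨_, hφ, V, hV, hVe⟩
  have hc2 : Module.finrank ℂ (Pool.Agent.Helper880_ZP.blS r₀ N (Pool.Agent.Helper880_ZP.cgS C 𝔤)) ≤
      Module.finrank ℂ (Pool.Agent.Helper880_ZP.blS r₀ N (Pool.Agent.Helper880_ZP.cgS C 𝔤) ⊓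
        (𝔥 ⊔ Pool.Agent.Helper880_ZP.cjS (total C₀ P * (1 + V))
          (Pool.Agent.Helper880_ZP.ppS ℂ (Pool.Agent.Helper880_ZP.Lv N lev₀ lev))) : Submodule ℂ _) + r := by
    rw [hcj]
    exact hc1
  have hmem : ∀ j, ∀ X ∈ 𝔪, Pool.Agent.Helper880_R3.ib j X ∈
      Pool.Agent.Helper880_ZP.blS r₀ N (Pool.Agent.Helper880_ZP.cgS C 𝔤) := fun j X hX =>
    Pool.Agent.Helper880_ZP.ib_blS (hm hX)
  obtain ⟨S, h1, h2⟩ := Pool.Agent.Helper880_EX.LH_main (c := c) hEig hL' hml hr' (rat_eq.1 hmr) hmp hφ hst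
    (fun j 𝔫 k1 k2 k3 k4 k5 => hcod j 𝔫 k1 (rat_eq.2 k2) k3 k4 k5) hmem hc2
  refine ⟨S, h1, fun j hj X hX => ?_⟩
  obtain ⟨Y, y1, y2, y3, y4⟩ := h2 j (Finset.mem_compl.2 hj) X hX
  exact ⟨Y, y1, y2, y3, fun i hi hij => y4 i (Finset.mem_compl.2 hi) hij⟩

theorem per_eq {n : ℕ} (C : Matrix (Fin n) (Fin n) ℂ) (M : Matrix (Fin n) (Fin n) ℚ) (Z : Matrix (Fin n) (Fin n) (PowerSeries ℚ))
    (t : ℕ) : period C M Z t = C * (NormedSpace.exp ((-((Real.log (t : ℝ) : ℝ) : ℂ)) • Pool.Agent.Y119.HY.cm M) *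
      Pool.Agent.Y118.HV.Hv Z t) := by
  unfold period
  rw [map_eq]
  rfl

theorem windows (n : ℕ) (hn : 0 < n) (T : Polynomial ℤ) (A : Fin (n * n) → Fin (n * n) → Polynomial ℤ)
    (Z : Matrix (Fin n) (Fin n) (PowerSeries ℚ)) (hG : GFamily T A (entries Z)) (M : Matrix (Fin n) (Fin n) ℚ)
    (hM : M ^ n = 0) (𝔤 : Submodule ℂ (Matrix (Fin n) (Fin n) ℂ)) (hI : ∀ X ∈ 𝔤, Symmetry Z X)
    (hM𝔤 : ∀ X ∈ 𝔤, toC M * X - X * toC M ∈ 𝔤) :
    ∃ G : ℕ, 1 ≤ G ∧ ∀ (N r₀ s r : ℕ) (C₀ : Matrix (Fin r₀) (Fin r₀) ℂ) (C : Matrix (Fin n) (Fin n) ℂ)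
      (lev₀ : Fin r₀ → ℤ) (lev : Fin n → ℤ), 0 < N → FewPeriods s C₀ C → s + (if M = 0 then 0 else 1) ≤ r →
      ∃ E : ℕ, ∀ t : Fin N → ℕ, InWindow G E t → IsUnit (total C₀ fun j => period C M Z (t j)) →
        FewExceptions r (conjugate C 𝔤) lev₀ lev C₀ fun j => period C M Z (t j) := by
  obtain ⟨q', C', hG'⟩ := Pool.Agent.Y120.GH.gsys_of hG.ode hG.size hG.den (gal_eq hG)
  rw [map_eq] at hM𝔤
  obtain ⟨G, hG1, h⟩ := Pool.Agent.Helper880_ZP.two hn hG.T_ne hG.ode hG' (qu_eq hG.regular)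
    (fun X hX => sym_inf (hI X hX)) hM hM𝔤
  refine ⟨G, hG1, fun N r₀ s r C₀ C lev₀ lev hN hfew hs => ?_⟩
  obtain ⟨E, hE⟩ := h N 1 r₀ s r C₀ C lev₀ lev hN hfew hs
  exact ⟨E, fun t ht hu => concl hu fun 𝔥 h1 h2 h3 =>
    (hE t ht.1 ht.2.1 ht.2.2 (fun j => period C M Z (t j)) (funext fun j => per_eq _ _ _ _) hu 𝔥 h1).2 h2 h3⟩

theorem uf_of {I : Type} {H : I → ℕ} {σ : Type} [Fintype σ] {h : I → σ → PowerSeries ℚ} (hU : UniformFamily H h) :
    Pool.Agent.Helper880_UN.UF H h := by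
  refine ⟨?_, fun δ => ?_⟩
  · obtain ⟨q, E, h1⟩ := hU.system
    refine ⟨q, E, fun i => ?_⟩
    obtain ⟨T, hT, hS⟩ := h1 i
    exact ⟨T, hT, hS.one_le, hS.degT, hS.sizeT, hS.size, hS.den, hS.der⟩
  · obtain ⟨E, h1⟩ := hU.relations δ
    exact ⟨E, h1⟩

theorem joint_inf {n N : ℕ} {Z : Fin N → Matrix (Fin n) (Fin n) (PowerSeries ℚ)} {X : Fin N → Matrix (Fin n) (Fin n) ℂ}
    (h : JointSymmetry Z X) : Pool.Agent.Helper880_UN.InfJ Z X := by
  intro R hR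
  refine Eq.trans ?_ (h R hR)
  unfold Pool.Agent.Helper880_UN.DJ
  rw [map_sum]
  refine Finset.sum_congr rfl fun b _ => ?_
  rw [map_mul, map_sum, Matrix.mul_apply]
  refine congrArg₂ (· * ·) rfl (Finset.sum_congr rfl fun l _ => ?_)
  rw [map_mul, MvPolynomial.aeval_C, MvPolynomial.aeval_X, Matrix.map_apply]
  exact congrArg₂ (· * ·) (Polynomial.coe_C _) rfl

theorem uniform (n N : ℕ) (hn : 0 < n) (_ : 0 < N) (I : Type) (H : I → ℕ) (Z : I → Fin N → Matrix (Fin n) (Fin n) (PowerSeries ℚ))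
    (hU : UniformFamily H fun i => allEntries (Z i)) (M : Matrix (Fin n) (Fin n) ℚ) (hM : M ^ n = 0)
    (𝔤 : Submodule ℂ (Matrix (Fin n) (Fin n) ℂ)) (hI : ∀ i X, (∀ j, X j ∈ 𝔤) → JointSymmetry (Z i) X)
    (hM𝔤 : ∀ X ∈ 𝔤, toC M * X - X * toC M ∈ 𝔤) (r₀ s r : ℕ) (C₀ : Matrix (Fin r₀) (Fin r₀) ℂ) (C : Matrix (Fin n) (Fin n) ℂ)
    (lev₀ : Fin r₀ → ℤ) (lev : Fin n → ℤ) (hfew : FewPeriods s C₀ C) (hs : s + (if M = 0 then 0 else 1) ≤ r) :
    ∃ E : ℕ, ∀ (i : I) (t : ℕ), (H i + 2) ^ E ≤ t → ∀ L : ℂ,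
      IsUnit (total C₀ fun j => periodAt C M L (Z i j) (1 / (t : ℝ))) →
      FewExceptions r (conjugate C 𝔤) lev₀ lev C₀ fun j => periodAt C M L (Z i j) (1 / (t : ℝ)) := by
  rw [map_eq] at hM𝔤
  obtain ⟨E, hE⟩ := Pool.Agent.Helper880_UN.two_uni hn (uf_of hU) (fun i X hX => joint_inf (hI i X hX)) hM hM𝔤 1 r₀ s r C₀ C
    lev₀ lev hfew hs
  refine ⟨E, fun i t ht L hu => concl hu fun 𝔥 h1 h2 h3 =>
    (hE i t ht L (fun j => periodAt C M L (Z i j) (1 / (t : ℝ))) ?_ hu 𝔥 h1).2 h2 h3⟩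
  funext j
  unfold periodAt
  rw [map_eq]
  rfl

theorem value_sc {n : ℕ} (Z : Matrix (Fin n) (Fin n) (PowerSeries ℚ)) (g : ℤ) (t : ℕ) :
    Pool.Agent.Y118.HV.Hv (Pool.Agent.Helper880_UN.scZ g Z) t = valueAt Z ((g : ℝ) / t) := by
  ext i j
  show ((∑' k : ℕ, ((coeff k (rescale (g : ℚ) (Z i j)) : ℚ) : ℝ) * (1 / (t : ℝ)) ^ k : ℝ) : ℂ) =
    ((∑' k : ℕ, ((coeff k (Z i j) : ℚ) : ℝ) * ((g : ℝ) / t) ^ k : ℝ) : ℂ)
  congr 2
  funext k
  rw [coeff_rescale]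
  push_cast
  rw [div_pow, div_pow, one_pow]
  ring

theorem rational (n : ℕ) (hn : 0 < n) (T : Polynomial ℤ) (A : Fin (n * n) → Fin (n * n) → Polynomial ℤ)
    (Z : Matrix (Fin n) (Fin n) (PowerSeries ℚ)) (hG : GFamily T A (entries Z)) (M : Matrix (Fin n) (Fin n) ℚ)
    (hM : M ^ n = 0) (𝔤 : Submodule ℂ (Matrix (Fin n) (Fin n) ℂ)) (hI : ∀ X ∈ 𝔤, Symmetry Z X)
    (hM𝔤 : ∀ X ∈ 𝔤, toC M * X - X * toC M ∈ 𝔤) (r₀ s r : ℕ) (C₀ : Matrix (Fin r₀) (Fin r₀) ℂ) (C : Matrix (Fin n) (Fin n) ℂ)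
    (lev₀ : Fin r₀ → ℤ) (lev : Fin n → ℤ) (hfew : FewPeriods s C₀ C) (hs : s + (if M = 0 then 0 else 1) ≤ r) :
    ∃ E : ℕ, ∀ (g : ℤ) (t : ℕ), g ≠ 0 → (g.natAbs + 2) ^ E ≤ t → ∀ L : ℂ,
      IsUnit (total C₀ fun _ : Fin 1 => periodAt C M L Z ((g : ℝ) / t)) →
      FewExceptions r (conjugate C 𝔤) lev₀ lev C₀ fun _ : Fin 1 => periodAt C M L Z ((g : ℝ) / t) := by
  obtain ⟨q', C', hG'⟩ := Pool.Agent.Y120.GH.gsys_of hG.ode hG.size hG.den (gal_eq hG)
  rw [map_eq] at hM𝔤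
  obtain ⟨E, hE⟩ := Pool.Agent.Helper880_UN.two_uni (N := 1) hn (Pool.Agent.Helper880_UN.uf_scZ hG.T_ne hG')
    (fun g X hX => by
      have h1 : X = fun _ => X 0 := funext fun j => by rw [Subsingleton.elim j 0]
      rw [h1]
      exact Pool.Agent.Helper880_UN.infJ_sc (sym_inf (hI _ (hX 0))) g.2) hM hM𝔤 1 r₀ s r C₀ C lev₀ lev hfew hs
  refine ⟨E, fun g t hg ht L hu => concl hu fun 𝔥 h1 h2 h3 =>
    (hE ⟨g, hg⟩ t ht L (fun _ => periodAt C M L Z ((g : ℝ) / t)) ?_ hu 𝔥 h1).2 h2 h3⟩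
  funext j
  unfold periodAt
  rw [map_eq, value_sc]

theorem lwindows (n : ℕ) (hn : 0 < n) (T : Polynomial ℤ) (A : Fin (n * n) → Fin (n * n) → Polynomial ℤ)
    (Z : Matrix (Fin n) (Fin n) (PowerSeries ℚ)) (hG : GFamily T A (entries Z)) (M : Matrix (Fin n) (Fin n) ℚ)
    (hM : M ^ n = 0) (𝔤 : Submodule ℂ (Matrix (Fin n) (Fin n) ℂ)) (hI : ∀ X ∈ 𝔤, Symmetry Z X)
    (hM𝔤 : ∀ X ∈ 𝔤, toC M * X - X * toC M ∈ 𝔤) :
    ∃ G : ℕ, 1 ≤ G ∧ ∀ (N r₀ s r : ℕ) (C₀ : Matrix (Fin r₀) (Fin r₀) ℂ) (C : Matrix (Fin n) (Fin n) ℂ)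
      (lev₀ : Fin r₀ → ℤ) (lev : Fin n → ℤ), 0 < N → FewPeriods s C₀ C → s + (if M = 0 then 0 else 1) ≤ r →
      ∃ E : ℕ, ∀ t : Fin N → ℕ, InWindow G E t → IsUnit (total C₀ fun j => period C M Z (t j)) →
        LieFew r (conjugate C 𝔤) lev₀ lev C₀ fun j => period C M Z (t j) := by
  obtain ⟨q', C', hG'⟩ := Pool.Agent.Y120.GH.gsys_of hG.ode hG.size hG.den (gal_eq hG)
  rw [map_eq] at hM𝔤
  obtain ⟨G, hG1, h⟩ := Pool.Agent.Helper880_ZP.two hn hG.T_ne hG.ode hG' (qu_eq hG.regular)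
    (fun X hX => sym_inf (hI X hX)) hM hM𝔤
  refine ⟨G, hG1, fun N r₀ s r C₀ C lev₀ lev hN hfew hs => ?_⟩
  obtain ⟨E, hE⟩ := h N 1 r₀ s r C₀ C lev₀ lev hN hfew hs
  exact ⟨E, fun t ht hu => lconcl hu fun 𝔥 h1 h2 h3 =>
    (hE t ht.1 ht.2.1 ht.2.2 (fun j => period C M Z (t j)) (funext fun j => per_eq _ _ _ _) hu 𝔥 h1).2 h2 h3⟩

theorem count (n : ℕ) (hn : 0 < n) (T : Polynomial ℤ) (A : Fin (n * n) → Fin (n * n) → Polynomial ℤ)
    (Z : Matrix (Fin n) (Fin n) (PowerSeries ℚ)) (hG : GFamily T A (entries Z)) (M : Matrix (Fin n) (Fin n) ℚ)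
    (hM : M ^ n = 0) (𝔤 : Submodule ℂ (Matrix (Fin n) (Fin n) ℂ)) (hI : ∀ X ∈ 𝔤, Symmetry Z X)
    (hM𝔤 : ∀ X ∈ 𝔤, toC M * X - X * toC M ∈ 𝔤) (r₀ : ℕ) (C₀ : Matrix (Fin r₀) (Fin r₀) ℂ) (C : Matrix (Fin n) (Fin n) ℂ)
    (lev₀ : Fin r₀ → ℤ) (lev : Fin n → ℤ) (hC₀ : IsUnit C₀) :
    ∃ K δ : ℝ, 0 < δ ∧ ∀ (k : ℕ) (𝔦 : Fin k → Submodule ℂ (Matrix (Fin n) (Fin n) ℂ))
        (φ₀ : Matrix (Fin r₀) (Fin r₀) ℂ), (∀ l, 𝔦 l ≤ conjugate C 𝔤) → (∀ l, IsSimpleOverRationals (𝔦 l)) →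
        Splits lev₀ C₀ φ₀ → ∀ x : ℕ, 1 ≤ x →
          (({t | InLocus C M Z lev φ₀ 𝔦 t ∧ t ≤ x}.ncard : ℕ) : ℝ) ≤ k * (K * (x : ℝ) ^ (1 - δ)) := by
  have hw := lwindows n hn T A Z hG M hM 𝔤 hI hM𝔤
  obtain ⟨G, hG1, h⟩ := hw
  obtain ⟨s, hs⟩ := all_few C₀ C
  set r := s + (if M = 0 then 0 else 1) with hr
  obtain ⟨E, hE⟩ := h (r + 1) r₀ s r C₀ C lev₀ lev (Nat.succ_pos r) hs le_rfl
  obtain ⟨K, δ, hδ, hK⟩ := Pool.Agent.Helper880_AJ.count_win (G := G) (E := E) (N := r + 1) (by omega) (Nat.succ_pos r)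
  -- simple Lie algebras
  have one : ∀ (𝔪 : Submodule ℂ (Matrix (Fin n) (Fin n) ℂ)) (φ₀ : Matrix (Fin r₀) (Fin r₀) ℂ),
      𝔪 ≤ conjugate C 𝔤 → IsSimpleOverRationals 𝔪 → Splits lev₀ C₀ φ₀ → ∀ x : ℕ, 1 ≤ x →
      (({t | InLocus C M Z lev φ₀ (fun _ : Fin 1 => 𝔪) t ∧ t ≤ x}.ncard : ℕ) : ℝ) ≤ K * (x : ℝ) ^ (1 - δ) := by
    intro 𝔪 φ₀ hm hsimple h0 x hx
    refine hK {t | InLocus C M Z lev φ₀ (fun _ : Fin 1 => 𝔪) t} ?_ x hx
    intro t ht1 ht2 ht3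
    by_contra hcon
    simp only [not_exists, not_not] at hcon
    choose hu φ hφ hw hst hne 𝔥 hrat hlie hin X hX hnot using hcon
    have hQ : Pool.Agent.Helper880_EX.QSi 𝔪 := ⟨rat_eq.1 hsimple.rational, hsimple.lie, hsimple.nonabelian,
      fun 𝔦 k1 k2 k3 k4 => hsimple.simple 𝔦 k1 (rat_eq.2 k2) k3 k4⟩
    have hU := total_unit hC₀ hu
    obtain ⟨-, hblk⟩ := Pool.Agent.Helper880_ZP.blk hU h0 hφ
    obtain ⟨S, hS, hS'⟩ := hE t ⟨ht1, ht2, ht3⟩ hU 1 𝔪 φ₀ φ hm hsimple.rational hsimple.lie hQ.prf h0 hφ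
      (fun j => hst j 0)
      (fun j 𝔫 k1 k2 k3 k4 k5 => (hblk j).elim fun R hR => (hw j).elim fun w hw =>
        hQ.cod hR hw (hst j 0) (hne j 0) 𝔫 k1 (rat_eq.1 k2) k3 k4 k5)
      (Pool.Agent.Helper880_EX.prH 𝔥) (rat_eq.2 (Pool.Agent.Helper880_EX.prH_rat fun j => rat_eq.1 (hrat j)))
      (Pool.Agent.Helper880_EX.prH_lie hlie) ⟨φ₀, φ, rfl, hin⟩
    obtain ⟨j, hj⟩ : ∃ j, j ∉ S := by
      by_contra hc
      simp only [not_exists, not_not] at hc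
      have h1 : S = Finset.univ := Finset.eq_univ_of_forall hc
      rw [h1, Finset.card_univ, Fintype.card_fin] at hS
      omega
    have hXj : X j ∈ 𝔪 := by
      have h1 := hX j
      rwa [ciSup_const] at h1
    obtain ⟨Y, -, y2, y3, -⟩ := hS' j hj (X j) hXj
    refine hnot j ?_
    have h1 := Pool.Agent.Helper880_EX.prH_of (j := j) y2
    rw [y3] at h1
    exact h1
  refine ⟨K, δ, hδ, fun k 𝔦 φ₀ hm hsimple h0 x hx => ?_⟩
  have hsub : {t | InLocus C M Z lev φ₀ 𝔦 t ∧ t ≤ x} ⊆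
      ⋃ l ∈ (Finset.univ : Finset (Fin k)), {t | InLocus C M Z lev φ₀ (fun _ : Fin 1 => 𝔦 l) t ∧ t ≤ x} := by
    rintro t ⟨⟨hu, φ, hφ, hw, hst, hne, 𝔥, hrat, hlie, hin, X, hX, hnot⟩, htx⟩
    by_contra hcon
    simp only [Set.mem_iUnion, not_exists, Set.mem_ofPred_eq] at hcon
    have h1 : (⨆ l, 𝔦 l) ≤ 𝔥.comap (Pool.Agent.Helper880_R3.ib (r₀ := r₀) (0 : Fin 1)) := by
      refine iSup_le fun l Y hY => ?_
      by_contra hc
      refine hcon l (Finset.mem_univ l) ⟨⟨hu, φ, hφ, hw, fun _ => hst l, fun _ => hne l, 𝔥, hrat, hlie, hin, Y, ?_, ?_⟩, htx⟩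
      · rw [ciSup_const]
        exact hY
      · intro h2
        refine hc ?_
        rw [Submodule.mem_comap, Pool.Agent.Helper880_R3.ib_apply]
        have h3 : (Pi.single 0 Y : Fin 1 → Matrix (Fin n) (Fin n) ℂ) = fun _ => Y := by
          funext j
          rw [Subsingleton.elim j 0, Pi.single_eq_same]
        rw [h3]
        exact h2
    have h2 := h1 hX
    rw [Submodule.mem_comap, Pool.Agent.Helper880_R3.ib_apply] at h2
    have h3 : (Pi.single 0 X : Fin 1 → Matrix (Fin n) (Fin n) ℂ) = fun _ => X := by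
      funext j
      rw [Subsingleton.elim j 0, Pi.single_eq_same]
    rw [h3] at h2
    exact hnot h2
  have hfin : (⋃ l ∈ (Finset.univ : Finset (Fin k)), {t | InLocus C M Z lev φ₀ (fun _ : Fin 1 => 𝔦 l) t ∧ t ≤ x}).Finite := by
    refine Set.Finite.subset (Set.finite_le_nat x) ?_
    intro t ht
    simp only [Set.mem_iUnion, Set.mem_ofPred_eq] at ht
    obtain ⟨l, -, -, h1⟩ := ht
    exact h1
  have h1 := Set.ncard_le_ncard hsub hfin
  have h2 : (⋃ l ∈ (Finset.univ : Finset (Fin k)), {t | InLocus C M Z lev φ₀ (fun _ : Fin 1 => 𝔦 l) t ∧ t ≤ x}).ncard ≤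
      ∑ l : Fin k, {t | InLocus C M Z lev φ₀ (fun _ : Fin 1 => 𝔦 l) t ∧ t ≤ x}.ncard :=
    Finset.set_ncard_biUnion_le _ _
  have h3 : ((∑ l : Fin k, {t | InLocus C M Z lev φ₀ (fun _ : Fin 1 => 𝔦 l) t ∧ t ≤ x}.ncard : ℕ) : ℝ) ≤
      ∑ l : Fin k, K * (x : ℝ) ^ (1 - δ) := by
    push_cast
    exact Finset.sum_le_sum fun l _ => one (𝔦 l) φ₀ (hm l) (hsimple l) h0 x hx
  rw [Finset.sum_const, Finset.card_univ, Fintype.card_fin, nsmul_eq_mul] at h3
  have h4 : (({t | InLocus C M Z lev φ₀ 𝔦 t ∧ t ≤ x}.ncard : ℕ) : ℝ) ≤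
      ((∑ l : Fin k, {t | InLocus C M Z lev φ₀ (fun _ : Fin 1 => 𝔦 l) t ∧ t ≤ x}.ncard : ℕ) : ℝ) := by
    exact_mod_cast h1.trans h2
  exact h4.trans h3

theorem exc_in {n r₀ k : ℕ} {C : Matrix (Fin n) (Fin n) ℂ} {M : Matrix (Fin n) (Fin n) ℚ}
    {Z : Matrix (Fin n) (Fin n) (PowerSeries ℚ)} {lev : Fin n → ℤ} {φ₀ : Matrix (Fin r₀) (Fin r₀) ℂ}
    {φc : Matrix (Fin n) (Fin n) ℂ} {𝔦 : Fin k → Submodule ℂ (Matrix (Fin n) (Fin n) ℂ)}
    (hs : ∀ l, IsSimpleOverRationals (𝔦 l)) {t : ℕ} (h : Exceptional C M Z lev φ₀ φc 𝔦 t) : InLocus C M Z lev φ₀ 𝔦 t := by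
  obtain ⟨hu, φ, h1, h2, h3, h4, h5, d₀, d, f, h6⟩ := h
  refine ⟨hu, φ, h1, h2, h3, h4, Pool.Agent.Helper880_EX.mtB φ₀ (fun _ : Fin 1 => φ),
    rat_eq.2 Pool.Agent.Helper880_EX.mtB_rat, Pool.Agent.Helper880_EX.mtB_lie, Pool.Agent.Helper880_EX.mtB_phi, ?_⟩
  by_contra hcon
  simp only [not_exists, not_and, not_not] at hcon
  have hperf : Pool.Agent.Helper880_EX.Prf (⨆ l, 𝔦 l) := Pool.Agent.Helper880_EX.Prf_iSup fun l =>
    (Pool.Agent.Helper880_EX.QSi.prf ⟨rat_eq.1 (hs l).rational, (hs l).lie, (hs l).nonabelian,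
      fun 𝔧 k1 k2 k3 k4 => (hs l).simple 𝔧 k1 (rat_eq.2 k2) k3 k4⟩)
  have hLH : Pool.Agent.Helper880_EX.LH (Pool.Agent.Helper880_EX.mtB φ₀ (fun _ : Fin 1 => φ)) (⨆ l, 𝔦 l)
      (Finset.univ : Finset (Fin 1)) := by
    intro i _ X hX
    exact ⟨fun _ => X, fun _ => hX, hcon X hX, rfl, fun i' _ hi' => absurd (Subsingleton.elim i' i) hi'⟩
  refine h6 ?_
  rw [hodge_eq, hodge_eq, inv_eq]
  exact Pool.Agent.Helper880_EX.hodge_iff hperf hLH (fun _ => h5) fun l => Finset.mem_univ _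

/-- **The theorem.** -/
theorem result :
    (∀ (n : ℕ) (_ : 0 < n) (T : Polynomial ℤ) (A : Fin (n * n) → Fin (n * n) → Polynomial ℤ)
      (Z : Matrix (Fin n) (Fin n) (PowerSeries ℚ)) (_ : GFamily T A (entries Z)) (M : Matrix (Fin n) (Fin n) ℚ)
      (_ : M ^ n = 0) (𝔤 : Submodule ℂ (Matrix (Fin n) (Fin n) ℂ)) (_ : ∀ X ∈ 𝔤, Symmetry Z X)
      (_ : ∀ X ∈ 𝔤, toC M * X - X * toC M ∈ 𝔤),
      (∃ G : ℕ, 1 ≤ G ∧ ∀ (N r₀ s r : ℕ) (C₀ : Matrix (Fin r₀) (Fin r₀) ℂ) (C : Matrix (Fin n) (Fin n) ℂ)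
        (lev₀ : Fin r₀ → ℤ) (lev : Fin n → ℤ), 0 < N → FewPeriods s C₀ C → s + (if M = 0 then 0 else 1) ≤ r →
        ∃ E : ℕ, ∀ t : Fin N → ℕ, InWindow G E t → IsUnit (total C₀ fun j => period C M Z (t j)) →
          FewExceptions r (conjugate C 𝔤) lev₀ lev C₀ fun j => period C M Z (t j)) ∧
      (∀ (r₀ : ℕ) (C₀ : Matrix (Fin r₀) (Fin r₀) ℂ) (C : Matrix (Fin n) (Fin n) ℂ) (lev₀ : Fin r₀ → ℤ) (lev : Fin n → ℤ),
        IsUnit C₀ → ∃ K δ : ℝ, 0 < δ ∧ ∀ (k : ℕ) (𝔦 : Fin k → Submodule ℂ (Matrix (Fin n) (Fin n) ℂ))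
          (φ₀ : Matrix (Fin r₀) (Fin r₀) ℂ) (φc : Matrix (Fin n) (Fin n) ℂ), (∀ l, 𝔦 l ≤ conjugate C 𝔤) →
          (∀ l, IsSimpleOverRationals (𝔦 l)) → Splits lev₀ C₀ φ₀ → ∀ x : ℕ, 1 ≤ x →
            (({t | Exceptional C M Z lev φ₀ φc 𝔦 t ∧ t ≤ x}.ncard : ℕ) : ℝ) ≤ k * (K * (x : ℝ) ^ (1 - δ))) ∧
      ∀ (r₀ s r : ℕ) (C₀ : Matrix (Fin r₀) (Fin r₀) ℂ) (C : Matrix (Fin n) (Fin n) ℂ) (lev₀ : Fin r₀ → ℤ) (lev : Fin n → ℤ),
        FewPeriods s C₀ C → s + (if M = 0 then 0 else 1) ≤ r →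
        ∃ E : ℕ, ∀ (g : ℤ) (t : ℕ), g ≠ 0 → (g.natAbs + 2) ^ E ≤ t → ∀ L : ℂ,
          IsUnit (total C₀ fun _ : Fin 1 => periodAt C M L Z ((g : ℝ) / t)) →
          FewExceptions r (conjugate C 𝔤) lev₀ lev C₀ fun _ : Fin 1 => periodAt C M L Z ((g : ℝ) / t)) ∧
    ∀ (n N : ℕ) (_ : 0 < n) (_ : 0 < N) (I : Type) (H : I → ℕ) (Z : I → Fin N → Matrix (Fin n) (Fin n) (PowerSeries ℚ))
      (_ : UniformFamily H fun i => allEntries (Z i)) (M : Matrix (Fin n) (Fin n) ℚ) (_ : M ^ n = 0)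
      (𝔤 : Submodule ℂ (Matrix (Fin n) (Fin n) ℂ)) (_ : ∀ i X, (∀ j, X j ∈ 𝔤) → JointSymmetry (Z i) X)
      (_ : ∀ X ∈ 𝔤, toC M * X - X * toC M ∈ 𝔤) (r₀ s r : ℕ) (C₀ : Matrix (Fin r₀) (Fin r₀) ℂ) (C : Matrix (Fin n) (Fin n) ℂ)
      (lev₀ : Fin r₀ → ℤ) (lev : Fin n → ℤ), FewPeriods s C₀ C → s + (if M = 0 then 0 else 1) ≤ r →
      ∃ E : ℕ, ∀ (i : I) (t : ℕ), (H i + 2) ^ E ≤ t → ∀ L : ℂ,
        IsUnit (total C₀ fun j => periodAt C M L (Z i j) (1 / (t : ℝ))) →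
        FewExceptions r (conjugate C 𝔤) lev₀ lev C₀ fun j => periodAt C M L (Z i j) (1 / (t : ℝ)) := by
  refine ⟨fun n hn T A Z hG M hM 𝔤 hI hM𝔤 => ?_, uniform⟩
  have hw := windows n hn T A Z hG M hM 𝔤 hI hM𝔤
  refine ⟨hw, fun r₀ C₀ C lev₀ lev hC₀ => ?_, fun r₀ s r C₀ C lev₀ lev hfew hs =>
    rational n hn T A Z hG M hM 𝔤 hI hM𝔤 r₀ s r C₀ C lev₀ lev hfew hs⟩
  obtain ⟨K, δ, hδ, hK⟩ := count n hn T A Z hG M hM 𝔤 hI hM𝔤 r₀ C₀ C lev₀ lev hC₀
  refine ⟨K, δ, hδ, fun k 𝔦 φ₀ φc hm hsimple h0 x hx => ?_⟩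
  refine le_trans ?_ (hK k 𝔦 φ₀ hm hsimple h0 x hx)
  have hfin : {t | InLocus C M Z lev φ₀ 𝔦 t ∧ t ≤ x}.Finite := (Set.finite_le_nat x).subset fun t ht => ht.2
  have hsub : {t | Exceptional C M Z lev φ₀ φc 𝔦 t ∧ t ≤ x} ⊆ {t | InLocus C M Z lev φ₀ 𝔦 t ∧ t ≤ x} :=
    fun t ht => ⟨exc_in hsimple ht.1, ht.2⟩
  exact_mod_cast Set.ncard_le_ncard hsub hfin

end Pool.Agent.Results.MP_b8862a_ag.FromOneFibre
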