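import Pool.Agent.H694.ZO.SConv

/-!
# The zero-one law for the Mumford-Tate conjecture and the motivated classes

Let `X` be a smooth projective variety over an algebraic closure `k`, in the complex numbers, of a
field `k₁` finitely generated over `ℚ`, let `X ^ n` be its powers, and let `S` be a set of prime
numbers. Let `r n` be the number of linearly independent rational classes (of all codimensions) on
`X ^ n` which are Hodge classes and are `ℓ`-adic Tate classes for all `ℓ` in `S`; let `h n` be the
number of linearly independent Hodge classes, `m n` the number of linearly independent motivated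
classes (André), and `t ℓ n` the number of linearly independent `ℓ`-adic Tate classes. If `n` tends
to infinity,

* `h n / r n` converges to `A`, which is `1` or `∞`, and `A = 1` if and only if all Hodge classes on
  all powers of `X` are Tate classes, for all `ℓ` in `S`;
* `t ℓ n / r n` converges to `B ℓ`, which is `1` or `∞`, and `B ℓ = 1` if and only if all `ℓ`-adic
  Tate classes on all powers of `X` are `ℚ_ℓ`-linear combinations of rational classes which are
  Hodge classes and Tate classes for all primes in `S`;
* `r n / m n` converges to an element `M` of `{1, 2, …, ∞}`, and `M = 1` if and only if these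
  rational classes on all powers of `X` are motivated;
* hence `h n / m n` converges to `A M` and `t ℓ n / m n` converges to `B ℓ M`.

So the Mumford-Tate conjecture for `X` and all `ℓ` in `S` is equivalent to `A = B ℓ = 1`, and the
motivated Mumford-Tate conjecture to `M = A = B ℓ = 1`; a single Hodge class on a power of `X` which
is not a Tate class implies that asymptotically zero percent of the Hodge classes are Tate classes.
The indices `A M` and `B ℓ M` of the motivated classes in the Hodge classes and in the Tate classes
are all equal to the same number `M` as far as they are finite, for all `ℓ` in `S`. If the index in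
the Hodge classes and the index in the `ℓ`-adic Tate classes are finite, then the Mumford-Tate
conjecture holds for `X` and `ℓ`. If the Hodge classes on the powers of `X` are motivated, for
example if `X` is an abelian variety, then either all `ℓ`-adic Tate classes on the powers of `X` are
combinations of motivated classes or asymptotically zero percent of them are.
-/

open CategoryTheory AlgebraicGeometry

universe u w

namespace Pool.Agent.Results.MP_b8862a_ag.ZeroOneLaw

open Pool.Agent.H914 Pool.Agent.H914.VarClass Pool.Agent.H914.VarClass.Obj
  Pool.Agent.H914.WeilCohomology Pool.Agent.Y121.AHS Pool.Agent.R920.MT Pool.Agent.H694.ZS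

open Pool.Agent.Y133.Half (pw)

variable {k : Type u} [Field k] {𝒱 : VarClass k} {ops : CycleOps 𝒱}

/-- **The zero-one law.** -/
theorem result (T : HodgeTheory ops) (D : Actions.{u, w} T) (X : 𝒱.Obj) [Nontrivial (T.W.H X)]
    (m r h : ℕ → ℕ) (t : D.ι → ℕ → ℕ) (hm : ∀ n, m n = dimBy T.W (IsMotivated T.W) (pw X n))
    (hr : ∀ n, r n = dimBy T.W (IsHodgeTate D) (pw X n))
    (hh : ∀ n, h n = dimBy T.W (IsHodge T) (pw X n))
    (ht : ∀ i n, t i n = tateDim (D.G i) (pw X n)) :
    ∃ (M A : ℕ∞) (B : D.ι → ℕ∞), 1 ≤ M ∧ HasIndex r m M ∧ (M = 1 ↔ AreMotivated D X) ∧
      (A = 1 ∨ A = ⊤) ∧ HasIndex h r A ∧ HasIndex h m (A * M) ∧ (A = 1 ↔ HodgeAreTate D X) ∧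
      ∀ i, (B i = 1 ∨ B i = ⊤) ∧ HasIndex (t i) r (B i) ∧ HasIndex (t i) m (B i * M) ∧
        (B i = 1 ↔ TateAreHodge D i X) :=
  law D X hm hr hh ht

end Pool.Agent.Results.MP_b8862a_ag.ZeroOneLaw
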